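import Pool.Agent.Helper83.SU.St

/-!
# Module PW of project SU (MP_f663dd_lc): powers
-/

set_option autoImplicit false

namespace Pool.Agent.Helper39.SU

open Pool.Agent.Helper83.SU Pool.Agent.Helper83.CK Cardinal Set

universe u

theorem mPW : StKU.{u} → StPW.{u} := by
  classical
  intro hKU k τ θ hk hkτ hθ hρ hN
  have h2k : (2 : Cardinal.{u}) < k := lt_of_lt_of_le (by exact_mod_cast Cardinal.nat_lt_aleph0 2) hk
  have hθk : θ < k := (Cardinal.cantor θ).trans (hρ 2 h2k)
  have hτ : ℵ₀ ≤ τ := hk.trans hkτ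
  have hmul : #(θ.out × τ.out) = τ := by
    rw [Cardinal.mk_prod, Cardinal.lift_id, Cardinal.lift_id, Cardinal.mk_out, Cardinal.mk_out]
    refine Cardinal.mul_eq_right hτ (hθk.le.trans hkτ) ?_
    exact (lt_of_lt_of_le Cardinal.aleph0_pos hθ).ne'
  let Gr : (θ.out → τ.out) → Set (θ.out × τ.out) := fun f => {s | s.2 = f s.1}
  have hGr : Function.Injective Gr := by
    intro f g h
    funext t
    have h1 : (t, f t) ∈ Gr f := rfl
    rw [h] at h1
    exact h1
  have hF : #(range Gr) = τ ^ θ := by
    rw [Cardinal.mk_range_eq Gr hGr, Cardinal.mk_arrow, Cardinal.lift_id, Cardinal.lift_id,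
      Cardinal.mk_out, Cardinal.mk_out]
  have key := hKU k (θ.out × τ.out) (range Gr) hk (by rw [hmul]; exact hkτ)
    (by rw [hmul]; exact hN) (by
      intro B hB
      let Φ : (θ.out → Option B) → Set (θ.out × τ.out) := fun φ => {s | ∃ t b, φ t = some b ∧ b.1 = s}
      have hsub : ((fun X => X ∩ B) '' range Gr) ⊆ range Φ := by
        rintro _ ⟨_, ⟨f, rfl⟩, rfl⟩
        refine ⟨fun t => if h : (t, f t) ∈ B then some ⟨(t, f t), h⟩ else none, ?_⟩
        ext s
        constructor
        · rintro ⟨t, b, hb, rfl⟩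
          by_cases h : (t, f t) ∈ B
          · simp only [h, dif_pos] at hb
            have hb' := Option.some.inj hb
            subst hb'
            exact ⟨rfl, h⟩
          · simp [h] at hb
        · rintro ⟨h1, h2⟩
          have h3 : s.2 = f s.1 := h1
          have h4 : (s.1, f s.1) = s := by rw [← h3]
          have h5 : (s.1, f s.1) ∈ B := by rw [h4]; exact h2
          exact ⟨s.1, ⟨(s.1, f s.1), h5⟩, by simp [h5], h4⟩
      refine lt_of_le_of_lt (Cardinal.mk_le_mk_of_subset hsub) (lt_of_le_of_lt Cardinal.mk_range_le ?_)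
      rw [Cardinal.mk_arrow, Cardinal.lift_id, Cardinal.lift_id, Cardinal.mk_out, Cardinal.mk_option]
      exact hρ _ (Cardinal.add_lt_of_lt hk hB (lt_of_lt_of_le Cardinal.one_lt_aleph0 hk)))
  rw [hF] at key
  exact key

end Pool.Agent.Helper39.SU
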